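import Pool.Agent.X194.TF.Group

/-!
# MP_0c6837_al, Q1: a negative answer

The free group of rank five acts by homeomorphisms on a compact Hausdorff space `X`, faithfully,
minimally and strongly proximally, but the points with trivial stabilizer are not dense.

The space is `X = ∂F₄ × ∂F₃` (infinite reduced words).  Four generators act through the
boundary action of `F₄` on the first factor and of its quotient `F₃` on the second one.  The
fifth generator fixes the points of a nonempty open set.
-/

open MeasureTheory Filter Topology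

namespace Pool.Agent.Results.MP_0c6837_al.FaithfulNotTopologicallyFree

open Pool.Agent.X194.TF

theorem result :
    ∃ (n : ℕ) (X : Type) (_ : TopologicalSpace X) (_ : CompactSpace X) (_ : T2Space X)
      (_ : Nonempty X) (_ : MeasurableSpace X) (_ : BorelSpace X)
      (_ : MulAction (FreeGroup (Fin n)) X) (_ : ContinuousConstSMul (FreeGroup (Fin n)) X),
      (∀ g : FreeGroup (Fin n), (∀ x : X, g • x = x) → g = 1) ∧
      (∀ x : X, Dense (Set.range fun g : FreeGroup (Fin n) => g • x)) ∧
      (∀ μ : ProbabilityMeasure X, ∃ (x : X) (δ : ProbabilityMeasure X),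
        (δ : Measure X) = Measure.dirac x ∧
          δ ∈ closure {ν : ProbabilityMeasure X | ∃ g : FreeGroup (Fin n),
            (ν : Measure X) = (μ : Measure X).map (fun y => g • y)}) ∧
      ¬ Dense {x : X | ∀ g : FreeGroup (Fin n), g • x = x → g = 1} := by
  let Φ : FreeGroup (Fin 5) →* (X ≃ₜ X) :=
    phi.comp (FreeGroup.freeGroupCongr (finSuccEquiv 4)).toMonoidHom
  have hΦ : ∀ (g : FreeGroup (Option (Fin 4))),
      Φ ((FreeGroup.freeGroupCongr (finSuccEquiv 4)).symm g) = phi g := by
    intro g
    simp only [Φ, MonoidHom.comp_apply, MulEquiv.toMonoidHom_eq_coe, MonoidHom.coe_coe,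
      MulEquiv.apply_symm_apply]
  let A : MulAction (FreeGroup (Fin 5)) X :=
    { smul := fun g x => Φ g x
      one_smul := fun x => by
        change Φ 1 x = x
        rw [map_one]; rfl
      mul_smul := fun g h x => by
        change Φ (g * h) x = Φ g (Φ h x)
        rw [map_mul]; rfl }
  have hsmul : ∀ (g : FreeGroup (Fin 5)) (x : X), g • x = Φ g x := fun _ _ => rfl
  let hc : ContinuousConstSMul (FreeGroup (Fin 5)) X := ⟨fun g => (Φ g).continuous⟩
  let mX : MeasurableSpace X := borel X
  have bX : BorelSpace X := ⟨rfl⟩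
  refine ⟨5, X, inferInstance, inferInstance, inferInstance,
    ⟨(const (0, true), const (0, true))⟩, mX, bX, A, hc, ?_, ?_, ?_, ?_⟩
  · intro g hg
    have h : ∀ x : X, phi (FreeGroup.freeGroupCongr (finSuccEquiv 4) g) x = x := hg
    have := faithful _ h
    rwa [MulEquiv.map_eq_one_iff] at this
  · intro x
    refine (minimal x).mono ?_
    rintro _ ⟨g, rfl⟩
    refine ⟨(FreeGroup.freeGroupCongr (finSuccEquiv 4)).symm g, ?_⟩
    change ((FreeGroup.freeGroupCongr (finSuccEquiv 4)).symm g) • x = phi g x
    rw [hsmul, hΦ]
  · intro μ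
    obtain ⟨g, p₀, hg⟩ := contract
    let g' : ℕ → FreeGroup (Fin 5) := fun j =>
      (FreeGroup.freeGroupCongr (finSuccEquiv 4)).symm (g j)
    have hg' : ∀ x : X, Tendsto (fun j => g' j • x) atTop (𝓝 p₀) := by
      intro x
      refine (hg x).congr fun j => ?_
      rw [hsmul]
      change phi (g j) x = Φ ((FreeGroup.freeGroupCongr (finSuccEquiv 4)).symm (g j)) x
      rw [hΦ]
    have hmeas : ∀ j, Measurable (fun y : X => g' j • y) := fun j =>
      (continuous_const_smul (g' j)).measurable
    let δ : ProbabilityMeasure X := ⟨Measure.dirac p₀, inferInstance⟩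
    refine ⟨p₀, δ, rfl, ?_⟩
    let ν : ℕ → ProbabilityMeasure X := fun j => μ.map (hmeas j).aemeasurable
    have hν : ∀ j, (ν j : Measure X) = (μ : Measure X).map (fun y => g' j • y) := fun j => rfl
    refine mem_closure_of_tendsto (f := ν) (b := atTop) ?_
      (Eventually.of_forall fun j => ⟨g' j, hν j⟩)
    rw [ProbabilityMeasure.tendsto_iff_forall_integral_tendsto]
    intro f
    have e1 : ∀ j, ∫ y, f y ∂(ν j : Measure X) = ∫ y, f (g' j • y) ∂(μ : Measure X) := by
      intro j
      rw [hν j, integral_map (hmeas j).aemeasurable]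
      exact f.continuous.aestronglyMeasurable
    have e2 : ∫ y, f y ∂(δ : Measure X) = ∫ _y, f p₀ ∂(μ : Measure X) := by
      change ∫ y, f y ∂(Measure.dirac p₀) = _
      rw [integral_dirac' _ _ f.continuous.stronglyMeasurable, integral_const]
      simp
    rw [e2]
    refine Tendsto.congr (fun j => (e1 j).symm) ?_
    refine tendsto_integral_of_dominated_convergence (fun _ => ‖f‖) ?_ ?_ ?_ ?_
    · intro j
      exact (f.continuous.comp (continuous_const_smul (g' j))).aestronglyMeasurable
    · exact integrable_const _
    · intro j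
      exact Eventually.of_forall fun y => f.norm_coe_le_norm _
    · exact Eventually.of_forall fun y => (f.continuous.tendsto p₀).comp (hg' y)
  · intro hd
    have hopen : IsOpen {p : X | (p.1 0).1 = 3 ∧ (p.2 0).2 = false} := by
      have h1 : Continuous fun p : X => (p.1 0, p.2 0) :=
        ((continuous_letter 0).comp continuous_fst).prodMk
          ((continuous_letter 0).comp continuous_snd)
      exact (isOpen_discrete {q : Lt 4 × Lt 3 | q.1.1 = 3 ∧ q.2.2 = false}).preimage h1
    obtain ⟨p, hp1, hp2⟩ := hd.inter_open_nonempty _ hopen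
      ⟨(const (3, true), const (0, false)), rfl, rfl⟩
    have h1 : ((FreeGroup.freeGroupCongr (finSuccEquiv 4)).symm (FreeGroup.of none)) • p = p := by
      rw [hsmul, hΦ]
      exact phi_none p hp1.1 hp1.2
    have h2 := hp2 _ h1
    rw [MulEquiv.map_eq_one_iff] at h2
    exact FreeGroup.of_ne_one _ h2

end Pool.Agent.Results.MP_0c6837_al.FaithfulNotTopologicallyFree
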